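import Pool.Agent.W569.TG.Defs

set_option autoImplicit false

/-!
TG-BD: for an irreducible family, not all zero, the growth exponents are bounded.
-/

namespace Pool.Agent.W193.TG.BD

open Matrix Pool.Agent.W569.TG

variable {p : ℕ} [Fact p.Prime] {n : ℕ} {ι : Type}

lemma toQ_eq (M : Matrix (Fin n) (Fin n) ℤ_[p]) :
    toQ M = (PadicInt.Coe.ringHom (p := p)).mapMatrix M := rfl

lemma toQ_prod (X : ι → Matrix (Fin n) (Fin n) ℤ_[p]) (w : List ι) :
    toQ (w.map X).prod = (w.map fun i => toQ (X i)).prod := by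
  rw [toQ_eq, map_list_prod, List.map_map]
  rfl

lemma norm_mulVec_le (M : Matrix (Fin n) (Fin n) ℤ_[p]) (m : ℕ)
    (h : ∀ i j, (p : ℤ_[p]) ^ m ∣ M i j) (v : Fin n → ℚ_[p]) :
    ‖(toQ M).mulVec v‖ ≤ (p : ℝ) ^ (-(m : ℤ)) * ‖v‖ := by
  have hp : (0 : ℝ) ≤ (p : ℝ) ^ (-(m : ℤ)) := by positivity
  rw [pi_norm_le_iff_of_nonneg (by positivity)]
  intro i
  show ‖∑ j, toQ M i j * v j‖ ≤ _
  apply IsUltrametricDist.norm_sum_le_of_forall_le_of_nonneg (by positivity)
  intro j _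
  rw [norm_mul]
  apply mul_le_mul _ (norm_le_pi_norm v j) (norm_nonneg _) hp
  have h1 := (PadicInt.norm_le_pow_iff_mem_span_pow (M i j) m).2
    (Ideal.mem_span_singleton.2 (h i j))
  simpa [toQ] using h1

theorem main : S_BD := by
  intro p _ n ι X hI ⟨i0, hi0⟩
  -- the common kernel is zero
  have hker : ∀ v : Fin n → ℚ_[p], (∀ i, (toQ (X i)).mulVec v = 0) → v = 0 := by
    let W : Submodule ℚ_[p] (Fin n → ℚ_[p]) := ⨅ i, LinearMap.ker (toQ (X i)).mulVecLin
    have hW : ∀ v, v ∈ W ↔ ∀ i, (toQ (X i)).mulVec v = 0 := by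
      intro v
      simp [W, Submodule.mem_iInf]
    rcases hI W (fun i v hv => by
      rw [(hW v).1 hv i]; exact W.zero_mem) with h | h
    · intro v hv
      have : v ∈ W := (hW v).2 hv
      rw [h] at this
      simpa using this
    · exfalso
      apply hi0
      have h1 : ∀ v, (toQ (X i0)).mulVec v = 0 := fun v => (hW v).1 (h ▸ Submodule.mem_top) i0
      ext i j
      have h2 := congrFun (h1 (Pi.single j 1)) i
      rw [mulVec_single_one] at h2
      have h3 : ((X i0 i j : ℤ_[p]) : ℚ_[p]) = 0 := h2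
      rw [Matrix.zero_apply]
      exact Subtype.ext h3
  -- compactness
  have hp1 : (1 : ℝ) < p := by exact_mod_cast (Fact.out : p.Prime).one_lt
  have hp0 : (0 : ℝ) < p := by linarith
  obtain ⟨M, hM⟩ : ∃ M : ℕ, ∀ v : Fin n → ℚ_[p], ‖v‖ = 1 →
      ∃ i, (p : ℝ) ^ (-(M : ℤ)) ≤ ‖(toQ (X i)).mulVec v‖ := by
    have hc : IsCompact (Metric.sphere (0 : Fin n → ℚ_[p]) 1) := isCompact_sphere _ _
    obtain ⟨t, ht⟩ := hc.elim_finite_subcover
      (fun im : ι × ℕ => {v | (p : ℝ) ^ (-(im.2 : ℤ)) < ‖(toQ (X im.1)).mulVec v‖})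
      (fun im => isOpen_lt continuous_const
        (Continuous.norm (Continuous.matrix_mulVec continuous_const continuous_id)))
      (by
        intro v hv
        have hv1 : ‖v‖ = 1 := by simpa using hv
        have hv0 : v ≠ 0 := by
          rintro rfl
          simp at hv1
        have : ∃ i, (toQ (X i)).mulVec v ≠ 0 := by
          by_contra hcon
          push Not at hcon
          exact hv0 (hker v hcon)
        obtain ⟨i, hi⟩ := this
        have h1 : 0 < ‖(toQ (X i)).mulVec v‖ := norm_pos_iff.2 hi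
        obtain ⟨m, hm⟩ := exists_pow_lt_of_lt_one h1 (inv_lt_one_of_one_lt₀ hp1)
        rw [Set.mem_iUnion]
        refine ⟨(i, m), ?_⟩
        show (p : ℝ) ^ (-(m : ℤ)) < _
        rw [_root_.zpow_neg, zpow_natCast, ← inv_pow]
        exact hm)
    refine ⟨t.sup Prod.snd, fun v hv => ?_⟩
    have h1 : v ∈ Metric.sphere (0 : Fin n → ℚ_[p]) 1 := by simpa using hv
    have h2 := ht h1
    rw [Set.mem_iUnion₂] at h2
    obtain ⟨im, him, hlt⟩ := h2
    refine ⟨im.1, le_trans ?_ (le_of_lt hlt)⟩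
    apply zpow_le_zpow_right₀ hp1.le
    have : im.2 ≤ t.sup Prod.snd := Finset.le_sup (f := Prod.snd) him
    omega
  -- one step
  have hstep : ∀ v : Fin n → ℚ_[p], ∃ i,
      (p : ℝ) ^ (-(M : ℤ)) * ‖v‖ ≤ ‖(toQ (X i)).mulVec v‖ := by
    intro v
    by_cases hv : v = 0
    · exact ⟨i0, by simp [hv]⟩
    obtain ⟨j, hj⟩ : ∃ j, ‖v‖ = ‖v j‖ := by
      have hne : Nonempty (Fin n) := by
        by_contra hcon
        rw [not_nonempty_iff] at hcon
        exact hv (Subsingleton.elim _ _)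
      obtain ⟨j, -, hj⟩ := Finset.exists_max_image Finset.univ (fun j => ‖v j‖)
        Finset.univ_nonempty
      refine ⟨j, le_antisymm ?_ (norm_le_pi_norm v j)⟩
      rw [pi_norm_le_iff_of_nonneg (norm_nonneg _)]
      exact fun i => hj i (Finset.mem_univ i)
    have hv1 : 0 < ‖v‖ := norm_pos_iff.2 hv
    obtain ⟨i, hi⟩ := hM ((v j)⁻¹ • v) (by
      rw [norm_smul, norm_inv, ← hj, inv_mul_cancel₀ hv1.ne'])
    refine ⟨i, ?_⟩
    rw [mulVec_smul, norm_smul, norm_inv, ← hj, ← div_eq_inv_mul, le_div_iff₀ hv1] at hi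
    exact hi
  have hword : ∀ (t : ℕ) (v : Fin n → ℚ_[p]), ∃ w : List ι, w.length = t ∧
      (p : ℝ) ^ (-((M * t : ℕ) : ℤ)) * ‖v‖ ≤ ‖((w.map fun i => toQ (X i)).prod).mulVec v‖ := by
    intro t
    induction t with
    | zero => intro v; exact ⟨[], rfl, by simp⟩
    | succ t ih =>
      intro v
      obtain ⟨w, hw, h1⟩ := ih v
      obtain ⟨i, hi⟩ := hstep (((w.map fun i => toQ (X i)).prod).mulVec v)
      refine ⟨i :: w, by simp [hw], ?_⟩
      rw [List.map_cons, List.prod_cons, ← mulVec_mulVec]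
      refine le_trans ?_ hi
      have h2 : (p : ℝ) ^ (-((M * (t + 1) : ℕ) : ℤ)) =
          (p : ℝ) ^ (-(M : ℤ)) * (p : ℝ) ^ (-((M * t : ℕ) : ℤ)) := by
        rw [← zpow_add₀ hp0.ne']
        congr 1
        push_cast
        ring
      rw [h2, mul_assoc]
      exact mul_le_mul_of_nonneg_left h1 (by positivity)
  refine ⟨(M : ℝ) + 1, ?_⟩
  rintro ⟨C, hC⟩
  obtain ⟨t, ht⟩ := exists_nat_ge (C + 1)
  obtain ⟨v, hv⟩ : ∃ v : Fin n → ℚ_[p], v ≠ 0 := by
    by_contra hcon
    push Not at hcon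
    apply hi0
    ext i j
    have := congrFun (hcon (Pi.single i 1)) i
    simp at this
  obtain ⟨w, hw, h1⟩ := hword t v
  have h2 := hC w (M * t + 1) (by
    rw [hw]
    push_cast
    nlinarith)
  have h3 := norm_mulVec_le _ _ h2 v
  rw [toQ_prod] at h3
  have hv1 : 0 < ‖v‖ := norm_pos_iff.2 hv
  have h4 := le_of_mul_le_mul_right (h1.trans h3) hv1
  have h5 := (zpow_le_zpow_iff_right₀ hp1).1 h4
  push_cast at h5
  omega

end Pool.Agent.W193.TG.BD

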